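import Pool.Agent.H884R2.Sko.Algo

set_option autoImplicit false

/-!
An errorless partial recursive algorithm for the Skolem problem, which halts if and only if there
is a zero or a modulus which divides no term. (After `Pool.Agent.H884R2.Sko.Algo`, where the
modulus is a prime.)
-/

namespace Pool.Agent.R544.OM

open Polynomial Finset Pool.Agent.H692R2.USS Pool.Agent.Helper446 Pool.Agent.H884R2.Sko

/-- the search relation -/
def RelM (p : List (ℕ × ℕ) × List (ℕ × ℕ)) (b : Bool) : Prop :=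
  (b = true ∧ ∃ n, (run (Fq p.1) p.2 n).1 = (run (Fq p.1) p.2 n).2) ∨
  (b = false ∧ ∃ q : ℕ, ∀ n < (q + 1) ^ p.2.length + 1,
    (run (Fq p.1) p.2 n).1 % (q + 1) ≠ (run (Fq p.1) p.2 n).2 % (q + 1))

theorem re_RelM : REPred fun x : (List (ℕ × ℕ) × List (ℕ × ℕ)) × Bool => RelM x.1 x.2 := by
  unfold RelM
  refine RE.or (RE.and (RE.eq (by fun_prop) (by fun_prop)) ?_)
    (RE.and (RE.eq (by fun_prop) (by fun_prop)) ?_)
  · refine RE.ex (p := fun (x : (List (ℕ × ℕ) × List (ℕ × ℕ)) × Bool) (n : ℕ) =>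
      (run (Fq x.1.1) x.1.2 n).1 = (run (Fq x.1.1) x.1.2 n).2) ?_
    exact RE.eq (by fun_prop) (by fun_prop)
  · refine RE.ex (p := fun (x : (List (ℕ × ℕ) × List (ℕ × ℕ)) × Bool) (q : ℕ) =>
      ∀ n < (q + 1) ^ x.1.2.length + 1,
        (run (Fq x.1.1) x.1.2 n).1 % (q + 1) ≠ (run (Fq x.1.1) x.1.2 n).2 % (q + 1)) ?_
    refine RE.all_lt (p := fun (x : ((List (ℕ × ℕ) × List (ℕ × ℕ)) × Bool) × ℕ) (n : ℕ) =>
      (run (Fq x.1.1.1) x.1.1.2 n).1 % (x.2 + 1) ≠
        (run (Fq x.1.1.1) x.1.1.2 n).2 % (x.2 + 1)) ?_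
      (by fun_prop)
    exact RE.ne (by fun_prop) (by fun_prop)

theorem relM_false_iff {p : List (ℕ × ℕ) × List (ℕ × ℕ)} {u : ℕ → ℤ} (h : IsLRS p u) :
    RelM p false ↔ ∃ q : ℕ, 1 ≤ q ∧ ∀ n, ¬ (q : ℤ) ∣ u n := by
  unfold RelM
  simp only [Bool.false_eq_true, false_and, true_and, false_or]
  have hrun := isLRS_run' h
  have aux : ∀ q : ℕ, (∀ n < (q + 1) ^ p.2.length + 1,
      (run (Fq p.1) p.2 n).1 % (q + 1) ≠ (run (Fq p.1) p.2 n).2 % (q + 1)) ↔
      ∀ n, ¬ ((q + 1 : ℕ) : ℤ) ∣ u n := by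
    intro q
    constructor
    · intro h' n
      have hd : p.1.length = p.2.length := h.1
      have key := no_zero_bounded (R := ZMod (q + 1)) (d := p.1.length)
        (fun i => (((iv (p.1.getD (p.1.length - 1 - i) (0, 0))) : ℤ) : ZMod (q + 1)))
        (fun n => (u n : ZMod (q + 1))) ?_ ?_ n
      · intro hdvd
        exact key ((ZMod.intCast_zmod_eq_zero_iff_dvd _ _).2 hdvd)
      · intro n
        rw [h.2.2.2 n, ← Finset.sum_range_reflect]
        push_cast
        rw [Fin.sum_univ_eq_sum_range (fun i => ((iv (p.1.getD (p.1.length - 1 - i) (0, 0)) : ℤ) :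
          ZMod (q + 1)) * ((u (n + i) : ℤ) : ZMod (q + 1))) p.1.length]
        refine Finset.sum_congr rfl fun i hi => ?_
        rw [Finset.mem_range] at hi
        rw [show n + p.1.length - 1 - (p.1.length - 1 - i) = n + i by omega]
        simp [iv]
      · intro n hn
        rw [ZMod.card, hd] at hn
        have h1 := (mod_ne_iff _ _).1 (h' n hn)
        rw [hrun] at h1
        rw [Ne, ZMod.intCast_zmod_eq_zero_iff_dvd]
        exact h1
    · intro h' n _
      rw [mod_ne_iff, hrun]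
      exact h' n
  constructor
  · rintro ⟨q, hq⟩
    exact ⟨q + 1, by omega, (aux q).1 hq⟩
  · rintro ⟨q, hq1, hq⟩
    refine ⟨q - 1, (aux (q - 1)).2 ?_⟩
    rwa [show q - 1 + 1 = q by omega]

theorem relM_true_iff {p : List (ℕ × ℕ) × List (ℕ × ℕ)} {u : ℕ → ℤ} (h : IsLRS p u) :
    RelM p true ↔ ∃ n, u n = 0 := by
  unfold RelM
  simp only [Bool.true_eq_false, false_and, true_and, or_false]
  refine exists_congr fun n => ?_
  rw [← isLRS_run' h n]
  unfold iv
  omega

/-- The algorithm. -/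
theorem algoM : ∃ A : List (ℕ × ℕ) × List (ℕ × ℕ) →. Bool, Partrec A ∧
    ∀ p u, IsLRS p u → (∀ b ∈ A p, (b = true ↔ ∃ n, u n = 0)) ∧
      ((A p).Dom ↔ (∃ n, u n = 0) ∨ ∃ q : ℕ, 1 ≤ q ∧ ∀ n, ¬ (q : ℤ) ∣ u n) := by
  obtain ⟨A, hA, hdom, hs⟩ := RE.uniformize re_RelM
  refine ⟨A, hA, fun p u hu => ⟨?_, ?_⟩⟩
  · intro b hb
    have h1 := hs p b hb
    cases b with
    | true => simpa using (relM_true_iff hu).1 h1
    | false =>
      obtain ⟨q, _, hq⟩ := (relM_false_iff hu).1 h1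
      simp only [Bool.false_eq_true, false_iff, not_exists]
      intro n hn
      apply hq n
      rw [hn]
      exact dvd_zero _
  · rw [hdom]
    constructor
    · rintro ⟨b, hb⟩
      cases b with
      | true => exact Or.inl ((relM_true_iff hu).1 hb)
      | false => exact Or.inr ((relM_false_iff hu).1 hb)
    · rintro (h | h)
      · exact ⟨true, (relM_true_iff hu).2 h⟩
      · exact ⟨false, (relM_false_iff hu).2 h⟩

end Pool.Agent.R544.OM
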