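import Mathlib

set_option autoImplicit false

/-!
Abel summation, the averaging argument and the greedy choice of a modulus.
-/

namespace Pool.Agent.R544.OM

open Finset

/-- Abel summation -/
lemma abel (a : ℕ → ℝ) (ha : ∀ n, 0 ≤ a n) (ha0 : a 0 = 0) (c : ℝ) (hc : 0 ≤ c) (N0 : ℕ)
    (h : ∀ N, N0 ≤ N → c * N ≤ ∑ n ∈ range (N + 1), a n) (N : ℕ) (hN : N0 ≤ N) :
    (∑ n ∈ range (N + 1), a n) / ((N : ℝ) + 1) +
      c * (Real.log ((N : ℝ) + 2) - Real.log ((N0 : ℝ) + 2)) ≤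
      ∑ n ∈ range (N + 1), a n / (n : ℝ) := by
  induction N, hN using Nat.le_induction with
  | base =>
    rw [sub_self, mul_zero, add_zero, sum_div]
    refine sum_le_sum fun n hn => ?_
    rw [mem_range] at hn
    rcases Nat.eq_zero_or_pos n with rfl | hn0
    · rw [ha0]; simp
    · have h1 : (0 : ℝ) < n := by exact_mod_cast hn0
      have h2 : (n : ℝ) ≤ N0 + 1 := by
        have : n ≤ N0 := by omega
        have : (n : ℝ) ≤ N0 := by exact_mod_cast this
        linarith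
      exact div_le_div_of_nonneg_left (ha n) h1 h2
  | succ N hN ih =>
    rw [sum_range_succ (fun n => a n / (n : ℝ)) (N + 1)]
    have hA := h (N + 1) (by omega)
    set A' := ∑ n ∈ range (N + 1 + 1), a n with hA'
    have hAA : A' = ∑ n ∈ range (N + 1), a n + a (N + 1) := by rw [hA', sum_range_succ]
    set A := ∑ n ∈ range (N + 1), a n with hAdef
    push_cast at hA ⊢
    have hN0 : (0 : ℝ) ≤ N := Nat.cast_nonneg N
    have h1 : Real.log ((N : ℝ) + 1 + 2) - Real.log ((N : ℝ) + 2) ≤ 1 / ((N : ℝ) + 2) := by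
      rw [← Real.log_div (by positivity) (by positivity)]
      have h2 := Real.log_le_sub_one_of_pos (x := ((N : ℝ) + 1 + 2) / ((N : ℝ) + 2)) (by positivity)
      refine h2.trans (le_of_eq ?_)
      field_simp
      ring
    have h3 : c * (Real.log ((N : ℝ) + 1 + 2) - Real.log ((N : ℝ) + 2)) ≤
        c * (1 / ((N : ℝ) + 2)) := mul_le_mul_of_nonneg_left h1 hc
    have h4 : c * (1 / ((N : ℝ) + 2)) ≤ A' / (((N : ℝ) + 1) * ((N : ℝ) + 2)) := by
      rw [mul_one_div, div_le_div_iff₀ (by positivity) (by positivity)]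
      nlinarith
    have h5 : A' / ((N : ℝ) + 1) - A' / ((N : ℝ) + 1 + 1) =
        A' / (((N : ℝ) + 1) * ((N : ℝ) + 2)) := by
      field_simp
      ring
    have h6 : A' / ((N : ℝ) + 1) = A / ((N : ℝ) + 1) + a (N + 1) / ((N : ℝ) + 1) := by
      rw [hAA]; ring
    have h7 : c * (Real.log ((N : ℝ) + 1 + 2) - Real.log ((N0 : ℝ) + 2)) =
        c * (Real.log ((N : ℝ) + 2) - Real.log ((N0 : ℝ) + 2)) +
        c * (Real.log ((N : ℝ) + 1 + 2) - Real.log ((N : ℝ) + 2)) := by ring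
    linarith

lemma two_pow_sum (p J : ℕ) :
    ∃ v, v ≤ J ∧ 2 ^ v ∣ p - 1 ∧
      ∑ i ∈ (range J).filter (fun i => 2 ^ (i + 1) ∣ p - 1), 2 ^ i ≤ 2 ^ v := by
  set v := Nat.findGreatest (fun j => 2 ^ j ∣ p - 1) J with hv
  have h1 : 2 ^ v ∣ p - 1 := by
    have := Nat.findGreatest_spec (P := fun j => 2 ^ j ∣ p - 1) (m := 0) (n := J) (Nat.zero_le _)
      (by simp)
    exact this
  refine ⟨v, Nat.findGreatest_le J, h1, ?_⟩
  have h2 : (range J).filter (fun i => 2 ^ (i + 1) ∣ p - 1) ⊆ range v := by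
    intro i hi
    rw [mem_filter, mem_range] at hi
    rw [mem_range]
    exact Nat.le_findGreatest (P := fun j => 2 ^ j ∣ p - 1) (by omega) hi.2
  refine (sum_le_sum_of_subset h2).trans ?_
  have h3 : ∀ n : ℕ, ∑ i ∈ range n, 2 ^ i + 1 = 2 ^ n := by
    intro n
    induction n with
    | zero => simp
    | succ n ih => rw [sum_range_succ, pow_succ]; omega
  have := h3 v
  omega

lemma count_mult (p J N : ℕ) (hp : 2 < p) :
    (N : ℝ) * (((∑ i ∈ (range J).filter (fun i => 2 ^ (i + 1) ∣ p - 1), 2 ^ i : ℕ) : ℝ) / p) - 1 ≤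
      (((Icc 1 N).filter (fun k => p - 1 ∣ 2 ^ J * k)).card : ℝ) := by
  obtain ⟨v, hvJ, ⟨q, hq⟩, hsum⟩ := two_pow_sum p J
  have hq0 : 0 < q := by
    rcases Nat.eq_zero_or_pos q with h | h
    · subst h; omega
    · exact h
  have h1 : N / q ≤ ((Icc 1 N).filter (fun k => p - 1 ∣ 2 ^ J * k)).card := by
    have h2 : (Icc 1 (N / q)).image (fun i => q * i) ⊆
        (Icc 1 N).filter (fun k => p - 1 ∣ 2 ^ J * k) := by
      intro k hk
      rw [mem_image] at hk
      obtain ⟨i, hi, rfl⟩ := hk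
      rw [mem_Icc] at hi
      rw [mem_filter, mem_Icc]
      refine ⟨⟨Nat.mul_pos hq0 hi.1, ?_⟩, ?_⟩
      · calc q * i ≤ q * (N / q) := Nat.mul_le_mul_left _ hi.2
          _ ≤ N := Nat.mul_div_le N q
      · rw [hq]
        exact mul_dvd_mul (pow_dvd_pow 2 hvJ) (dvd_mul_right q i)
    have h3 : ((Icc 1 (N / q)).image (fun i => q * i)).card = N / q := by
      rw [card_image_of_injective _ (fun a b h => Nat.eq_of_mul_eq_mul_left hq0 h)]
      simp
    rw [← h3]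
    exact card_le_card h2
  have h2 : (N : ℝ) / q - 1 ≤ ((N / q : ℕ) : ℝ) := by
    have := Nat.lt_floor_add_one ((N : ℝ) / q)
    rw [Nat.floor_div_eq_div] at this
    linarith
  have h3 : ((N / q : ℕ) : ℝ) ≤ (((Icc 1 N).filter (fun k => p - 1 ∣ 2 ^ J * k)).card : ℝ) := by
    exact_mod_cast h1
  refine le_trans ?_ (h2.trans h3)
  have hpq : (p : ℝ) - 1 = 2 ^ v * q := by
    have : p = 2 ^ v * q + 1 := by omega
    have h : (p : ℝ) = 2 ^ v * q + 1 := by exact_mod_cast this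
    linarith
  have hqR : (0 : ℝ) < q := by exact_mod_cast hq0
  have h4 : ((∑ i ∈ (range J).filter (fun i => 2 ^ (i + 1) ∣ p - 1), 2 ^ i : ℕ) : ℝ) ≤ 2 ^ v := by
    exact_mod_cast hsum
  have hpR : (0 : ℝ) < p := by
    have : 0 < p := by omega
    exact_mod_cast this
  have h5 : ((∑ i ∈ (range J).filter (fun i => 2 ^ (i + 1) ∣ p - 1), 2 ^ i : ℕ) : ℝ) / p ≤ 1 / q := by
    rw [div_le_div_iff₀ hpR hqR]
    nlinarith
  have h6 : (N : ℝ) * (((∑ i ∈ (range J).filter (fun i => 2 ^ (i + 1) ∣ p - 1), 2 ^ i : ℕ) : ℝ) / p)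
      ≤ N * (1 / q) := mul_le_mul_of_nonneg_left h5 (Nat.cast_nonneg N)
  have h7 : (N : ℝ) * (1 / q) = N / q := by ring
  linarith

/-- double counting -/
lemma avg (S : Finset ℕ) (J N : ℕ) (hS : ∀ p ∈ S, 2 < p) :
    (N : ℝ) * ∑ i ∈ range J, (2 : ℝ) ^ i *
        ∑ p ∈ S.filter (fun p => 2 ^ (i + 1) ∣ p - 1), Real.log p / p - ∑ p ∈ S, Real.log p ≤
      ∑ k ∈ Icc 1 N, ∑ p ∈ S.filter (fun p => p - 1 ∣ 2 ^ J * k), Real.log p := by
  have e1 : ∑ k ∈ Icc 1 N, ∑ p ∈ S.filter (fun p => p - 1 ∣ 2 ^ J * k), Real.log p =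
      ∑ p ∈ S, Real.log p * (((Icc 1 N).filter (fun k => p - 1 ∣ 2 ^ J * k)).card : ℝ) := by
    simp_rw [sum_filter]
    rw [sum_comm]
    refine sum_congr rfl fun p _ => ?_
    rw [← sum_filter, sum_const, nsmul_eq_mul, mul_comm]
  have e2 : (N : ℝ) * ∑ i ∈ range J, (2 : ℝ) ^ i *
        ∑ p ∈ S.filter (fun p => 2 ^ (i + 1) ∣ p - 1), Real.log p / p - ∑ p ∈ S, Real.log p =
      ∑ p ∈ S, Real.log p * ((N : ℝ) *
        (((∑ i ∈ (range J).filter (fun i => 2 ^ (i + 1) ∣ p - 1), 2 ^ i : ℕ) : ℝ) / p) - 1) := by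
    simp_rw [mul_sub, mul_one, sum_sub_distrib]
    congr 1
    rw [mul_sum]
    simp_rw [mul_sum, sum_filter]
    rw [sum_comm]
    refine sum_congr rfl fun p _ => ?_
    push_cast
    rw [sum_div, mul_sum, mul_sum]
    refine sum_congr rfl fun i _ => ?_
    split_ifs
    · ring
    · simp
  rw [e1, e2]
  refine sum_le_sum fun p hp => ?_
  have h1 : (0 : ℝ) ≤ Real.log p := Real.log_nonneg (by
    have := hS p hp
    have h : 1 ≤ p := by omega
    exact_mod_cast h)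
  exact mul_le_mul_of_nonneg_left (count_mult p J N (hS p hp)) h1

/-- the greedy choice -/
lemma greedy (S : Finset ℕ) (N H : ℕ) (hS : ∀ p ∈ S, p ≤ N) (hH : 1 ≤ H)
    (h : H < ∏ p ∈ S, p) : ∃ S' ⊆ S, ∏ p ∈ S', p ≤ H ∧ H < N * ∏ p ∈ S', p := by
  classical
  induction S using Finset.induction_on with
  | empty => simp at h; omega
  | insert q S hq ih =>
    by_cases h1 : H < ∏ p ∈ S, p
    · obtain ⟨S', hS', h2⟩ := ih (fun p hp => hS p (mem_insert_of_mem hp)) h1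
      exact ⟨S', hS'.trans (subset_insert _ _), h2⟩
    · refine ⟨S, subset_insert _ _, not_lt.1 h1, ?_⟩
      rw [prod_insert hq] at h
      exact lt_of_lt_of_le h (Nat.mul_le_mul_right _ (hS q (mem_insert_self _ _)))

end Pool.Agent.R544.OM
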