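import Pool.Agent.R544.OM.Cnt
import Pool.Agent.H692R2.USS.SplitField

set_option autoImplicit false

/-!
Bad primes of a recurrence whose characteristic polynomial splits over a number field `L`,
with a bound for their product in terms of the coefficients.
-/

namespace Pool.Agent.R544.OM

open Pool.Agent.H884R2.Sko NumberField Polynomial Finset Pool.Agent.H692R2.USS
open scoped NNReal

lemma norm_root_le (f : ℤ[X]) (hf : f.Monic) (B : ℝ) (hB0 : 0 ≤ B)
    (hB : ∀ i < f.natDegree, |(f.coeff i : ℝ)| ≤ B)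
    (z : ℂ) (hz : (f.map (algebraMap ℤ ℂ)).IsRoot z) : ‖z‖ ≤ B + 1 := by
  have hm : (f.map (algebraMap ℤ ℂ)).Monic := hf.map _
  have h1 := IsRoot.norm_lt_cauchyBound hm.ne_zero hz
  have h2 : (f.map (algebraMap ℤ ℂ)).cauchyBound ≤ B.toNNReal + 1 := by
    unfold cauchyBound
    refine add_le_add ?_ (le_refl _)
    rw [hm.leadingCoeff, nnnorm_one, div_one]
    refine Finset.sup_le fun i hi => ?_
    rw [mem_range, hf.natDegree_map] at hi
    rw [coeff_map]
    rw [← NNReal.coe_le_coe, Real.coe_toNNReal B hB0]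
    rw [coe_nnnorm, eq_intCast, Complex.norm_intCast]
    exact hB i hi
  have h3 := lt_of_lt_of_le h1 h2
  rw [← NNReal.coe_lt_coe] at h3
  push_cast at h3
  rw [Real.coe_toNNReal B hB0] at h3
  exact le_of_lt h3

variable (L : Type) [Field L] [NumberField L]

lemma norm_le (x : 𝓞 L) (Y : ℝ) (hx : ∀ σ : L →ₐ[ℚ] ℂ, ‖σ (x : L)‖ ≤ Y) :
    (((Algebra.norm ℤ x).natAbs : ℕ) : ℝ) ≤ Y ^ Module.finrank ℚ L := by
  have h1 : ((Algebra.norm ℤ x : ℤ) : ℂ) = ∏ σ : L →ₐ[ℚ] ℂ, σ (x : L) := by
    rw [← Algebra.norm_eq_prod_embeddings ℚ ℂ (x : L), ← Algebra.coe_norm_int]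
    simp
  have h2 : (((Algebra.norm ℤ x).natAbs : ℕ) : ℝ) = ‖((Algebra.norm ℤ x : ℤ) : ℂ)‖ := by
    rw [Complex.norm_intCast, Nat.cast_natAbs]
    simp
  rw [h2, h1, norm_prod]
  calc ∏ σ : L →ₐ[ℚ] ℂ, ‖σ (x : L)‖ ≤ ∏ σ : L →ₐ[ℚ] ℂ, Y :=
        prod_le_prod (fun _ _ => norm_nonneg _) fun σ _ => hx σ
    _ = Y ^ Module.finrank ℚ L := by
        rw [prod_const, card_univ, AlgHom.card]

theorem bad {d : ℕ} (c : Fin d → ℤ) (B : ℕ) (hB1 : 1 ≤ B) (hB : ∀ i, |c i| ≤ (B : ℤ))
    (h0 : (chi c).coeff 0 ≠ 0) (hd : 0 < d)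
    (hsq : Squarefree ((chi c).map (Int.castRingHom ℚ)))
    (hsp : ((chi c).map (algebraMap ℤ L)).Splits) :
    ∃ Δ : ℕ, 1 ≤ Δ ∧
      (Δ : ℝ) ≤ B * (((4 * B : ℝ) ^ Module.finrank ℚ L) ^ (d * d)) ∧
      ∀ p : ℕ, p.Prime → Nonempty (𝓞 L →+* ZMod p) → ¬ p ∣ Δ → GoodPrime c p := by
  classical
  set f := chi c with hf
  have hfm : f.Monic := chi_monic c
  have hfd : f.natDegree = d := chi_natDegree (c := c)
  set F := f.map (algebraMap ℤ (𝓞 L)) with hF
  have hFs : F.Splits := SplitFieldAux.splits_OK L f hfm hsp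
  have hFm : F.Monic := hfm.map _
  have hFd : F.natDegree = d := by rw [hF, hfm.natDegree_map, hfd]
  have hprod := hFs.eq_prod_roots_of_monic hFm
  -- the roots are distinct
  have hFL : F.map (algebraMap (𝓞 L) L) = f.map (algebraMap ℤ L) := by
    rw [hF, Polynomial.map_map]
    congr 1
  have hsepQ : (f.map (Int.castRingHom ℚ)).Separable := by
    rw [PerfectField.separable_iff_squarefree]
    exact hsq
  have hsepL : (f.map (algebraMap ℤ L)).Separable := by
    have h1 := hsepQ.map (f := algebraMap ℚ L)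
    rw [Polynomial.map_map] at h1
    have h2 : (algebraMap ℚ L).comp (Int.castRingHom ℚ) = algebraMap ℤ L := RingHom.ext_int _ _
    rwa [h2] at h1
  have hnd : F.roots.Nodup := by
    have h1 : (F.map (algebraMap (𝓞 L) L)).roots = F.roots.map (algebraMap (𝓞 L) L) := by
      conv_lhs => rw [hprod]
      rw [Polynomial.map_multiset_prod, Multiset.map_map]
      have h2 : Multiset.map (Polynomial.map (algebraMap (𝓞 L) L) ∘ fun a => X - C a) F.roots =
          Multiset.map (fun a => X - C a) (F.roots.map (algebraMap (𝓞 L) L)) := by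
        rw [Multiset.map_map]
        refine Multiset.map_congr rfl fun a _ => ?_
        simp
      rw [h2, roots_multiset_prod_X_sub_C]
    have h3 : (F.map (algebraMap (𝓞 L) L)).roots.Nodup := by
      rw [hFL]; exact nodup_roots hsepL
    rw [h1] at h3
    exact h3.of_map
  set A : Finset (𝓞 L) := F.roots.toFinset with hA
  have hAval : A.val = F.roots := by
    rw [hA, Multiset.toFinset_val, hnd.dedup]
  have hAcard : A.card = d := by
    rw [Finset.card_def, hAval, ← hFs.natDegree_eq_card_roots, hFd]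
  have hprodA : F = ∏ a ∈ A, (X - C a) := by
    rw [Finset.prod_eq_multiset_prod, hAval]
    exact hprod
  have hBcoef : ∀ i < f.natDegree, |(f.coeff i : ℝ)| ≤ (B : ℝ) := by
    intro i hi
    rw [hfd] at hi
    have h1 : f.coeff i = - c ⟨i, hi⟩ := chi_coeff (c := c) ⟨i, hi⟩
    rw [h1]
    push_cast
    rw [abs_neg]
    have := hB ⟨i, hi⟩
    exact_mod_cast this
  have hroot : ∀ a ∈ A, ∀ σ : L →ₐ[ℚ] ℂ, ‖σ (a : L)‖ ≤ (B : ℝ) + 1 := by
    intro a ha σ
    refine norm_root_le f hfm B (Nat.cast_nonneg B) hBcoef _ ?_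
    rw [hA, Multiset.mem_toFinset, mem_roots hFm.ne_zero] at ha
    have h1 : eval (a : L) (f.map (algebraMap ℤ L)) = 0 := by
      rw [← hFL, eval_map_algebraMap]
      have h2 := ha.map (f := algebraMap (𝓞 L) L)
      rw [IsRoot, eval_map_algebraMap] at h2
      exact h2
    rw [IsRoot]
    have h2 : (f.map (algebraMap ℤ L)).map (σ : L →+* ℂ) = f.map (algebraMap ℤ ℂ) := by
      rw [Polynomial.map_map]
      congr 1
      exact RingHom.ext_int _ _
    have h3 : IsRoot (f.map (algebraMap ℤ L)) (a : L) := h1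
    have h4 := h3.map (f := (σ : L →+* ℂ))
    rw [h2] at h4
    exact h4
  have hB1' : (1 : ℝ) ≤ B := by exact_mod_cast hB1
  set Δ0 : ℕ := ∏ x ∈ A.offDiag, (Algebra.norm ℤ (x.1 - x.2)).natAbs with hΔ0
  refine ⟨(f.coeff 0).natAbs * Δ0, ?_, ?_, ?_⟩
  · refine Nat.mul_pos (Int.natAbs_pos.2 h0) (prod_pos fun x hx => ?_)
    rw [mem_offDiag] at hx
    rw [Int.natAbs_pos, Ne, Algebra.norm_eq_zero_iff, sub_eq_zero]
    exact hx.2.2
  · push_cast
    refine mul_le_mul ?_ ?_ (by positivity) (by positivity)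
    · rw [Nat.cast_natAbs, Int.cast_abs]
      exact hBcoef 0 (by omega)
    · rw [hΔ0]
      push_cast
      have hone : (1 : ℝ) ≤ (4 * B : ℝ) ^ Module.finrank ℚ L := one_le_pow₀ (by linarith)
      calc ∏ x ∈ A.offDiag, (((Algebra.norm ℤ (x.1 - x.2)).natAbs : ℕ) : ℝ)
          ≤ ∏ x ∈ A.offDiag, (4 * B : ℝ) ^ Module.finrank ℚ L := by
            refine prod_le_prod (fun _ _ => Nat.cast_nonneg _) fun x hx => ?_
            rw [mem_offDiag] at hx
            refine norm_le L _ _ fun σ => ?_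
            have e : (((x.1 - x.2 : 𝓞 L)) : L) = (x.1 : L) - (x.2 : L) := by
              simp
            rw [e, map_sub]
            refine (norm_sub_le _ _).trans ?_
            have h1 := hroot x.1 hx.1 σ
            have h2 := hroot x.2 hx.2.1 σ
            linarith
        _ = ((4 * B : ℝ) ^ Module.finrank ℚ L) ^ A.offDiag.card := by rw [prod_const]
        _ ≤ ((4 * B : ℝ) ^ Module.finrank ℚ L) ^ (d * d) := by
            refine pow_le_pow_right₀ hone ?_
            rw [offDiag_card, hAcard]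
            omega
  · intro p hp hφ hpΔ
    obtain ⟨φ⟩ := hφ
    haveI : Fact p.Prime := ⟨hp⟩
    have hmap : f.map (Int.castRingHom (ZMod p)) = F.map φ := by
      rw [hF, Polynomial.map_map]
      congr 1
      exact RingHom.ext_int _ _
    refine ⟨hp, ?_, ?_, ?_⟩
    · rw [hmap]; exact hFs.map φ
    · rw [hmap, hprodA, Polynomial.map_prod]
      simp only [Polynomial.map_sub, map_X, map_C]
      rw [separable_prod_X_sub_C_iff']
      intro x hx y hy hxy
      by_contra hne
      apply hpΔ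
      refine Dvd.dvd.mul_left ?_ _
      have hmem : (x, y) ∈ A.offDiag := mem_offDiag.2 ⟨hx, hy, hne⟩
      refine dvd_trans ?_ (dvd_prod_of_mem _ hmem)
      simp only
      have h1 := Ideal.absNorm_mem (Ideal.span ({x - y} : Set (𝓞 L)))
      rw [Ideal.absNorm_span_singleton, Ideal.mem_span_singleton] at h1
      obtain ⟨w, hw⟩ := h1
      have h2 : φ (((Algebra.norm ℤ (x - y)).natAbs : ℕ) : 𝓞 L) = 0 := by
        rw [hw, map_mul, map_sub, hxy, sub_self, zero_mul]
      rw [map_natCast] at h2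
      exact (ZMod.natCast_eq_zero_iff _ _).1 h2
    · intro h
      apply hpΔ
      refine Dvd.dvd.mul_right ?_ _
      exact Int.natCast_dvd.1 h

end Pool.Agent.R544.OM
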