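import Pool.Agent.H884R2.Sko.Density

set_option autoImplicit false

/-!
Counting initial values modulo `M`, and the period modulo a product of primes.
-/

namespace Pool.Agent.R544.OM

open Pool.Agent.H884R2.Sko Finset Polynomial

/-- the state at time `n` determines the initial values if the last coefficient is a unit -/
lemma state_inj {R : Type*} [CommRing R] {d : ℕ} (hd : 0 < d) (c : Fin d → R)
    (h0 : IsUnit (c ⟨0, hd⟩)) (n : ℕ) (a a' : Fin d → R)
    (h : ∀ i : Fin d, seq c a (n + i) = seq c a' (n + i)) : a = a' := by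
  classical
  induction n with
  | zero =>
    funext i
    have := h i
    rwa [zero_add, seq_init, seq_init] at this
  | succ n ih =>
    apply ih
    have key : ∀ i : Fin d, 0 < (i : ℕ) → seq c a (n + i) = seq c a' (n + i) := by
      intro i hi
      have := h ⟨(i : ℕ) - 1, by omega⟩
      simp only at this
      rwa [show n + 1 + ((i : ℕ) - 1) = n + i by omega] at this
    have hlast := h ⟨d - 1, by omega⟩
    simp only at hlast
    rw [show n + 1 + (d - 1) = n + d by omega, seq_sol, seq_sol] at hlast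
    rw [← Finset.add_sum_erase _ _ (mem_univ (⟨0, hd⟩ : Fin d)),
      ← Finset.add_sum_erase univ (fun i : Fin d => c i * seq c a' (n + i))
        (mem_univ (⟨0, hd⟩ : Fin d))] at hlast
    have h2 : ∑ i ∈ univ.erase (⟨0, hd⟩ : Fin d), c i * seq c a (n + i) =
        ∑ i ∈ univ.erase (⟨0, hd⟩ : Fin d), c i * seq c a' (n + i) := by
      refine sum_congr rfl fun i hi => ?_
      rw [mem_erase] at hi
      rw [key i]
      rcases Nat.eq_zero_or_pos (i : ℕ) with h3 | h3
      · exact absurd (Fin.ext h3) hi.1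
      · exact h3
    rw [h2] at hlast
    have h3 := add_right_cancel hlast
    have h4 := h0.mul_left_cancel h3
    intro i
    rcases Nat.eq_zero_or_pos (i : ℕ) with h5 | h5
    · rw [h5]; exact h4
    · exact key i h5

lemma card_val {R : Type*} [CommRing R] [Fintype R] [DecidableEq R] {d : ℕ} (hd : 0 < d)
    (c : Fin d → R) (h0 : IsUnit (c ⟨0, hd⟩)) (n : ℕ) (t : R) :
    ((univ : Finset (Fin d → R)).filter (fun a => seq c a n = t)).card ≤
      Fintype.card R ^ (d - 1) := by
  have h1 : Fintype.card R ^ (d - 1) = (univ : Finset (Fin (d - 1) → R)).card := by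
    rw [card_univ, Fintype.card_fun, Fintype.card_fin]
  rw [h1]
  apply card_le_card_of_injOn (fun a => fun i : Fin (d - 1) => seq c a (n + 1 + i))
  · intro a _; exact mem_univ _
  · intro a ha a' ha' h
    rw [mem_coe, mem_filter] at ha ha'
    apply state_inj hd c h0 n
    intro i
    rcases Nat.eq_zero_or_pos (i : ℕ) with h5 | h5
    · rw [h5]
      show seq c a n = seq c a' n
      rw [ha.2, ha'.2]
    · have := congrFun h ⟨(i : ℕ) - 1, by omega⟩
      simp only at this
      rwa [show n + 1 + ((i : ℕ) - 1) = n + i by omega] at this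

open Classical in
lemma card_omega {M d : ℕ} [NeZero M] (hd : 0 < d) (c : Fin d → ZMod M)
    (h0 : IsUnit (c ⟨0, hd⟩)) (m T : ℕ) :
    ((univ : Finset (Fin d → ZMod M)).filter
      (fun a => ∃ n < m, ∃ t : ℤ, |t| ≤ T ∧ seq c a n = (t : ZMod M))).card ≤
      m * (2 * T + 1) * M ^ (d - 1) := by
  have h1 : ((univ : Finset (Fin d → ZMod M)).filter
      (fun a => ∃ n < m, ∃ t : ℤ, |t| ≤ T ∧ seq c a n = (t : ZMod M))) ⊆
      (range m ×ˢ Icc (-(T : ℤ)) T).biUnion
        (fun x => (univ : Finset (Fin d → ZMod M)).filter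
          (fun a => seq c a x.1 = ((x.2 : ℤ) : ZMod M))) := by
    intro a ha
    rw [mem_filter] at ha
    obtain ⟨_, n, hn, t, ht, hs⟩ := ha
    rw [mem_biUnion]
    refine ⟨(n, t), ?_, ?_⟩
    · rw [mem_product, mem_range, mem_Icc]
      exact ⟨hn, abs_le.1 ht⟩
    · rw [mem_filter]
      exact ⟨mem_univ _, hs⟩
  refine (card_le_card h1).trans ?_
  have h2 := card_biUnion_le_card_mul (range m ×ˢ Icc (-(T : ℤ)) T)
    (fun x => (univ : Finset (Fin d → ZMod M)).filter
          (fun a => seq c a x.1 = ((x.2 : ℤ) : ZMod M))) (M ^ (d - 1)) (by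
      intro x _
      have := card_val hd c h0 x.1 ((x.2 : ℤ) : ZMod M)
      rwa [ZMod.card] at this)
  refine h2.trans (le_of_eq ?_)
  rw [card_product, card_range, Int.card_Icc]
  congr 2
  omega

/-- the condition on a prime -/
def GoodPrime {d : ℕ} (c : Fin d → ℤ) (p : ℕ) : Prop :=
  p.Prime ∧ ((chi c).map (Int.castRingHom (ZMod p))).Splits ∧
    ((chi c).map (Int.castRingHom (ZMod p))).Separable ∧ ¬ (p : ℤ) ∣ (chi c).coeff 0

lemma period_prime {d : ℕ} (c : Fin d → ℤ) (p m : ℕ) (hp : GoodPrime c p) (hm : p - 1 ∣ m)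
    (a : Fin d → ℤ) (n : ℕ) : (p : ℤ) ∣ seq c a (n + m) - seq c a n := by
  classical
  obtain ⟨hpp, h1, hsep, h0⟩ := hp
  haveI : Fact p.Prime := ⟨hpp⟩
  have hcm : (chi c).map (Int.castRingHom (ZMod p)) = chi (fun i => (c i : ZMod p)) := by
    rw [chi_map]; rfl
  have h0' : (chi (fun i => (c i : ZMod p))).coeff 0 ≠ 0 := by
    rw [← hcm, coeff_map, eq_intCast, Ne, ZMod.intCast_zmod_eq_zero_iff_dvd]
    exact h0
  rw [hcm] at h1 hsep
  set c' : Fin d → ZMod p := fun i => (c i : ZMod p) with hc'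
  have hne : chi c' ≠ 0 := (chi_monic c').ne_zero
  set S : Finset (ZMod p) := (chi c').roots.toFinset with hS
  have hnd : (chi c').roots.Nodup := nodup_roots hsep
  have hval : S.val = (chi c').roots := by
    rw [hS, Multiset.toFinset_val, hnd.dedup]
  have hcard : S.card = d := by
    rw [Finset.card_def, hval, ← h1.natDegree_eq_card_roots, chi_natDegree]
  have hpoly : poly S = chi c' := by
    unfold poly
    rw [Finset.prod_eq_multiset_prod, hval]
    exact (h1.eq_prod_roots_of_monic (chi_monic c')).symm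
  have hcoef : coef d S = c' := by
    funext i
    unfold coef
    rw [hpoly, chi_coeff, neg_neg]
  have hST : ∀ a ∈ S, a ^ m = 1 := by
    intro a ha
    rw [hS, Multiset.mem_toFinset, mem_roots hne] at ha
    have ha0 : a ≠ 0 := by
      rintro rfl
      rw [IsRoot, ← coeff_zero_eq_eval_zero] at ha
      exact h0' ha
    obtain ⟨k, rfl⟩ := hm
    rw [pow_mul, ZMod.pow_card_sub_one_eq_one ha0, one_pow]
  have h8 := seq_periodic d m S hcard hST (fun i => (a i : ZMod p)) n
  rw [hcoef] at h8
  rw [← ZMod.intCast_zmod_eq_zero_iff_dvd]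
  push_cast
  rw [sub_eq_zero]
  have e : ∀ k, ((seq c a k : ℤ) : ZMod p) = seq c' (fun i => (a i : ZMod p)) k := fun k =>
    map_seq (Int.castRingHom (ZMod p)) c a k
  rw [e, e]
  exact h8

lemma period_prod {d : ℕ} (c : Fin d → ℤ) (S : Finset ℕ) (m : ℕ)
    (hS : ∀ p ∈ S, GoodPrime c p ∧ p - 1 ∣ m) (a : Fin d → ℤ) (n : ℕ) :
    ((∏ p ∈ S, p : ℕ) : ℤ) ∣ seq c a (n + m) - seq c a n := by
  push_cast
  apply Finset.prod_dvd_of_coprime
  · intro p hp q hq hpq
    have := (Nat.coprime_primes (hS p hp).1.1 (hS q hq).1.1).2 hpq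
    exact Nat.isCoprime_iff_coprime.2 this
  · intro p hp
    exact period_prime c p m (hS p hp).1 (hS p hp).2 a n

lemma period_mod {d : ℕ} (c : Fin d → ℤ) (M : ℤ) (m : ℕ)
    (h : ∀ (a : Fin d → ℤ) (n : ℕ), M ∣ seq c a (n + m) - seq c a n)
    (a : Fin d → ℤ) (n : ℕ) : M ∣ seq c a n - seq c a (n % m) := by
  have key : ∀ k r : ℕ, M ∣ seq c a (r + m * k) - seq c a r := by
    intro k r
    induction k with
    | zero => simp
    | succ k ih =>
      have h1 := h a (r + m * k)
      have h2 := dvd_add h1 ih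
      rw [sub_add_sub_cancel] at h2
      rwa [show r + m * (k + 1) = r + m * k + m by ring]
  have := key (n / m) (n % m)
  rwa [Nat.mod_add_div] at this

end Pool.Agent.R544.OM
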