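import Pool.Agent.H332R2.PIT.Main
import Pool.Agent.H484R2.Pit
import Mathlib.NumberTheory.Cyclotomic.PrimitiveRoots

set_option autoImplicit false

/-!
Primes `p ≡ 1` modulo `2 ^ j` with a prime of degree one above them in a fixed number field:
lower bounds for their logarithmic sums, uniform in `j` (from the prime ideal theorem).
-/

namespace Pool.Agent.R544.OM

open Polynomial NumberField Filter Topology Finset

variable (L : Type) [Field L] [NumberField L]

/-- `L` with the roots of unity of order `2 ^ j` -/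
abbrev KJ (j : ℕ) : Type := CyclotomicField (2 ^ j) L

lemma finrank_KJ (j : ℕ) :
    Module.finrank ℚ (KJ L j) ≤ Module.finrank ℚ L * 2 ^ j := by
  have hz := IsCyclotomicExtension.zeta_spec (2 ^ j) L (KJ L j)
  have h1 : Module.finrank ℚ L * Module.finrank L (KJ L j) = Module.finrank ℚ (KJ L j) :=
    Module.finrank_mul_finrank ℚ L (KJ L j)
  rw [← h1]
  refine Nat.mul_le_mul_left _ ?_
  rw [(hz.powerBasis L).finrank, ← PowerBasis.natDegree_minpoly]
  have h2 : (hz.powerBasis L).gen = IsCyclotomicExtension.zeta (2 ^ j) L (KJ L j) :=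
    hz.powerBasis_gen L
  rw [h2]
  have h3 : minpoly L (IsCyclotomicExtension.zeta (2 ^ j) L (KJ L j)) ∣ X ^ (2 ^ j) - 1 := by
    apply minpoly.dvd
    simp [hz.pow_eq_one]
  have h5 : (X ^ (2 ^ j) - 1 : L[X]) ≠ 0 := by
    have h := X_pow_sub_C_ne_zero (R := L) (n := 2 ^ j) (by positivity) 1
    rwa [C_1] at h
  have h4 := natDegree_le_of_dvd h3 h5
  refine h4.trans ?_
  rw [show (X ^ (2 ^ j) - 1 : L[X]) = X ^ (2 ^ j) - C 1 by simp, natDegree_X_pow_sub_C]

lemma dvd_of_hom {j p : ℕ} [Fact p.Prime] (hp : p ≠ 2) (φ : 𝓞 (KJ L j) →+* ZMod p) :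
    2 ^ j ∣ p - 1 := by
  rcases Nat.eq_zero_or_pos j with rfl | hj
  · simp
  obtain ⟨i, rfl⟩ : ∃ i, j = i + 1 := ⟨j - 1, by omega⟩
  have hz := IsCyclotomicExtension.zeta_spec (2 ^ (i + 1)) L (KJ L (i + 1))
  set z : 𝓞 (KJ L (i + 1)) := hz.toInteger with hzdef
  have hzi : IsPrimitiveRoot z (2 ^ (i + 1)) := hz.toInteger_isPrimitiveRoot
  have h2 : IsPrimitiveRoot (z ^ (2 ^ i)) 2 := by
    refine hzi.pow (by positivity) ?_
    rw [pow_succ]
  have h3 : z ^ (2 ^ i) = -1 := h2.eq_neg_one_of_two_right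
  have h4 : (φ z) ^ (2 ^ i) = -1 := by
    rw [← map_pow, h3, map_neg, map_one]
  have hne : (-1 : ZMod p) ≠ 1 := by
    have : Fact (2 < p) := ⟨by
      have := (Fact.out : p.Prime).two_le
      omega⟩
    exact ZMod.neg_one_ne_one
  clear_value z
  generalize φ z = w at h4
  have h5 : orderOf w = 2 ^ (i + 1) := by
    apply orderOf_eq_prime_pow
    · rw [h4]; exact hne
    · rw [pow_succ, pow_mul, h4]; simp
  rw [← h5]
  apply ZMod.orderOf_dvd_card_sub_one
  intro h0
  rw [h0] at h4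
  rw [zero_pow (by positivity)] at h4
  have : (1 : ZMod p) = 0 := by linear_combination h4
  exact one_ne_zero this

/-- the primes of level `j`: there is a homomorphism from the integers of `L (ζ_{2^j})` -/
def Lev (j p : ℕ) : Prop := Nonempty (𝓞 (KJ L j) →+* ZMod p)

end Pool.Agent.R544.OM
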