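import Pool.Agent.R544.OM.Main

set_option autoImplicit false

/-!
The lower bound, the algorithm and the limit.
-/

namespace Pool.Agent.R544.OM

open Pool.Agent.H884R2.Sko NumberField Polynomial Finset Pool.Agent.H692R2.USS Filter
open scoped Classical Topology

/-- a number field over which a monic integer polynomial splits -/
theorem exists_field (g : ℤ[X]) : ∃ (K : Type) (_ : Field K) (_ : NumberField K),
    (g.map (algebraMap ℤ K)).Splits := by
  let K : Type := (g.map (algebraMap ℤ ℚ)).SplittingField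
  letI : Field K := inferInstanceAs (Field (g.map (algebraMap ℤ ℚ)).SplittingField)
  haveI hNF : NumberField K :=
    { to_charZero := inferInstanceAs (CharZero (g.map (algebraMap ℤ ℚ)).SplittingField)
      to_finiteDimensional :=
        inferInstanceAs (FiniteDimensional ℚ (g.map (algebraMap ℤ ℚ)).SplittingField) }
  refine ⟨K, inferInstance, hNF, ?_⟩
  have h1 : (g.map (algebraMap ℤ ℚ)).map (algebraMap ℚ K) = g.map (algebraMap ℤ K) := by
    rw [Polynomial.map_map]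
    congr 1
  have h2 : ((g.map (algebraMap ℤ ℚ)).map (algebraMap ℚ K)).Splits :=
    Polynomial.SplittingField.splits (g.map (algebraMap ℤ ℚ))
  rwa [h1] at h2

/-- the initial values in the cube whose sequence has a zero -/
noncomputable def zeros {d : ℕ} (c : Fin d → ℤ) (H : ℕ) : Finset (Fin d → ℤ) :=
  (box 0 H).filter (fun a => ∃ u, IsSeq c a u ∧ ∃ n, u n = 0)

lemma lower {d : ℕ} (hd : 1 ≤ d) (c : Fin d → ℤ) (H : ℕ) :
    (2 * H + 1) ^ (d - 1) ≤ (zeros c H).card := by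
  obtain ⟨e, rfl⟩ : ∃ e, d = e + 1 := ⟨d - 1, by omega⟩
  rw [Nat.add_sub_cancel, ← card_box (0 : Fin e → ℤ) H]
  apply card_le_card_of_injOn (fun a => (Fin.cons (0 : ℤ) a : Fin (e + 1) → ℤ))
  · intro a ha
    rw [mem_coe, mem_box] at ha
    rw [mem_coe, zeros, mem_filter, mem_box]
    refine ⟨?_, ?_⟩
    · intro i
      refine Fin.cases ?_ (fun j => ?_) i
      · simp
      · have := ha j
        simpa using this
    · obtain ⟨u, hu⟩ := exists_isSeq c (Fin.cons (0 : ℤ) a : Fin (e + 1) → ℤ)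
      refine ⟨u, hu, 0, ?_⟩
      have := hu.1 0
      simpa using this
  · intro a _ a' _ h
    exact (Fin.cons_inj.1 h).2

lemma hyps {d : ℕ} (hd : 1 ≤ d) (c : Fin d → ℤ) (hc : c ⟨d - 1, by omega⟩ ≠ 0) :
    (chi (fun i => c (Fin.rev i))).coeff 0 ≠ 0 := by
  have h1 : (chi (fun i => c (Fin.rev i))).coeff 0 = - c (Fin.rev ⟨0, by omega⟩) :=
    chi_coeff (c := fun i => c (Fin.rev i)) ⟨0, by omega⟩
  rw [h1, neg_ne_zero]
  have h2 : (Fin.rev ⟨0, by omega⟩ : Fin d) = ⟨d - 1, by omega⟩ := by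
    apply Fin.ext
    rw [Fin.val_rev]
  rw [h2]
  exact hc

theorem main : ∃ A : List (ℕ × ℕ) × List (ℕ × ℕ) →. Bool, Partrec A ∧
      (∀ p u, IsLRS p u → ∀ b ∈ A p, (b = true ↔ ∃ n, u n = 0)) ∧
      (∀ (L : Type) [Field L] [NumberField L] (d : ℕ) (hd : 1 ≤ d) (C : ℕ) (ε : ℝ), 0 < ε →
        ∃ H₀ : ℕ, ∀ H : ℕ, H₀ ≤ H → 1 ≤ H ∧ ∃ m : ℕ, 1 ≤ m ∧ (m : ℝ) ≤ (H : ℝ) ^ ε ∧
          ∀ c : Fin d → ℤ, (∀ i, |c i| ≤ (H : ℤ) ^ C) → c ⟨d - 1, by omega⟩ ≠ 0 →
            Squarefree ((charPoly c).map (Int.castRingHom ℚ)) →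
            ((charPoly c).map (algebraMap ℤ L)).Splits →
            ∃ M : ℕ, Squarefree M ∧ (H : ℝ) ^ (1 - ε) ≤ M ∧ M ≤ H ∧
              (∀ a u, IsSeq c a u → ∀ n, (M : ℤ) ∣ u (n + m) - u n) ∧
              ∀ (b : Fin d → ℤ) (T : ℕ), 1 ≤ T → ∃ E ⊆ box b H,
                (E.card : ℝ) ≤ T * (H : ℝ) ^ ((d : ℝ) - 1 + ε) ∧
                ∀ a ∈ box b H \ E, (A (code c, code a)).Dom ∧
                  ∀ u, IsSeq c a u → ∀ n, ∀ t : ℤ, |t| ≤ T → ¬ (M : ℤ) ∣ u n - t) := by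
  obtain ⟨A, hA, h⟩ := algoM
  refine ⟨A, hA, fun p u hu => (h p u hu).1, ?_⟩
  intro L _ _ d hd C ε hε
  obtain ⟨H₀, hH₀⟩ := modulus L d (by omega) C ε hε
  refine ⟨H₀, fun H hH => ?_⟩
  obtain ⟨hH1, m, hm1, hm2, hm⟩ := hH₀ H hH
  refine ⟨hH1, m, hm1, hm2, fun c hc hc0 hsq hsp => ?_⟩
  rw [charPoly_eq] at hsq hsp
  obtain ⟨M, hM1, hMsq, hMge, hMle, hper, hcount⟩ :=
    hm (fun i => c (Fin.rev i)) (fun i => hc _) (hyps hd c hc0) hsq hsp
  refine ⟨M, hMsq, hMge, hMle, ?_, ?_⟩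
  · intro a u hu n
    rw [isSeq_iff] at hu
    rw [hu, hu]
    exact hper a n
  · intro b T hT
    refine ⟨(box b H).filter (fun a => ∃ n, ∃ t : ℤ, |t| ≤ T ∧
      (M : ℤ) ∣ seq (fun i => c (Fin.rev i)) a n - t), filter_subset _ _, hcount b T hT, ?_⟩
    intro a ha
    obtain ⟨ha1, ha2⟩ := Finset.mem_sdiff.1 ha
    rw [mem_filter, not_and] at ha2
    have h1 := ha2 ha1
    push Not at h1
    have h2 : ∀ u, IsSeq c a u → ∀ n, ∀ t : ℤ, |t| ≤ T → ¬ (M : ℤ) ∣ u n - t := by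
      intro u hu n t ht
      rw [(isSeq_iff c a u).1 hu n]
      exact h1 n t ht
    refine ⟨?_, h2⟩
    obtain ⟨u, hu⟩ := exists_isSeq c a
    rw [(h (code c, code a) u (isLRS_code hd c a hc0 hu)).2]
    refine Or.inr ⟨M, hM1, fun n hn => h2 u hu n 0 (by simp) (by simpa using hn)⟩

theorem limit (d : ℕ) (hd : 1 ≤ d) (c : Fin d → ℤ) (hc : c ⟨d - 1, by omega⟩ ≠ 0)
    (hsq : Squarefree ((charPoly c).map (Int.castRingHom ℚ))) :
    Tendsto (fun H : ℕ => Real.log ((zeros c H).card : ℝ) / Real.log H) atTop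
      (𝓝 ((d : ℝ) - 1)) := by
  obtain ⟨A, hA, -, h⟩ := main
  obtain ⟨L, hF, hNF, hsp⟩ := exists_field (charPoly c)
  rw [Metric.tendsto_atTop]
  intro ε hε
  obtain ⟨H₀, hH₀⟩ := @h L hF hNF d hd 1 (ε / 2) (by positivity)
  set W : ℕ := ∑ i, (c i).natAbs with hW
  refine ⟨max H₀ (max W 2), fun H hH => ?_⟩
  have hH1 : H₀ ≤ H := (le_max_left _ _).trans hH
  have hH2 : W ≤ H := ((le_max_left _ _).trans (le_max_right _ _)).trans hH
  have hH3 : 2 ≤ H := ((le_max_right _ _).trans (le_max_right _ _)).trans hH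
  obtain ⟨-, m, hm1, hm2, hm⟩ := hH₀ H hH1
  have hci : ∀ i, |c i| ≤ (H : ℤ) ^ 1 := by
    intro i
    rw [pow_one]
    have h1 : (c i).natAbs ≤ W := by
      rw [hW]
      exact single_le_sum (f := fun i => (c i).natAbs) (fun _ _ => Nat.zero_le _) (mem_univ i)
    have h2 : (c i).natAbs ≤ H := h1.trans hH2
    rw [Int.abs_eq_natAbs]
    exact_mod_cast h2
  obtain ⟨M, -, -, -, -, hM⟩ := hm c hci hc hsq hsp
  obtain ⟨E, hE1, hE2, hE3⟩ := hM 0 1 (le_refl 1)
  have hHR : (2 : ℝ) ≤ H := by exact_mod_cast hH3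
  have hlog : 0 < Real.log (H : ℝ) := Real.log_pos (by linarith)
  have hsub : zeros c H ⊆ E := by
    intro a ha
    rw [zeros, mem_filter] at ha
    by_contra haE
    obtain ⟨hbox, u, hu, n, hn⟩ := ha
    have := (hE3 a (mem_sdiff.2 ⟨hbox, haE⟩)).2 u hu n 0 (by simp)
    rw [hn] at this
    simp at this
  have hup : ((zeros c H).card : ℝ) ≤ (H : ℝ) ^ ((d : ℝ) - 1 + ε / 2) := by
    have h1 : ((zeros c H).card : ℝ) ≤ (E.card : ℝ) := by exact_mod_cast card_le_card hsub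
    refine h1.trans (hE2.trans ?_)
    simp
  have hlow : (H : ℝ) ^ (d - 1) ≤ ((zeros c H).card : ℝ) := by
    have h1 := lower hd c H
    have h2 : H ^ (d - 1) ≤ (2 * H + 1) ^ (d - 1) := Nat.pow_le_pow_left (by omega) _
    exact_mod_cast h2.trans h1
  have hpos : (0 : ℝ) < ((zeros c H).card : ℝ) := lt_of_lt_of_le (by positivity) hlow
  have h1 : Real.log ((zeros c H).card : ℝ) ≤ ((d : ℝ) - 1 + ε / 2) * Real.log H := by
    have := Real.log_le_log hpos hup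
    rwa [Real.log_rpow (by linarith)] at this
  have h2 : ((d : ℝ) - 1) * Real.log H ≤ Real.log ((zeros c H).card : ℝ) := by
    have := Real.log_le_log (by positivity) hlow
    rw [Real.log_pow] at this
    have e : ((d - 1 : ℕ) : ℝ) = (d : ℝ) - 1 := by push_cast [Nat.cast_sub hd]; ring
    rwa [e] at this
  rw [Real.dist_eq, abs_lt]
  constructor
  · have h3 : (d : ℝ) - 1 ≤ Real.log ((zeros c H).card : ℝ) / Real.log H := by
      rw [le_div_iff₀ hlog]; exact h2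
    linarith
  · have h3 : Real.log ((zeros c H).card : ℝ) / Real.log H ≤ (d : ℝ) - 1 + ε / 2 := by
      rw [div_le_iff₀ hlog]; exact h1
    linarith

end Pool.Agent.R544.OM
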