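import Pool.Agent.R544.OM.NT
import Pool.Agent.R544.OM.Bad
import Pool.Agent.R544.OM.Alg

set_option autoImplicit false

/-!
One modulus for almost all initial values: assembly.
-/

namespace Pool.Agent.R544.OM

open Pool.Agent.H884R2.Sko NumberField Polynomial Finset Pool.Agent.H692R2.USS Filter

lemma squarefree_prod (S : Finset ℕ) (hS : ∀ p ∈ S, p.Prime) : Squarefree (∏ p ∈ S, p) := by
  classical
  induction S using Finset.induction_on with
  | empty => simp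
  | insert q S hq ih =>
    rw [prod_insert hq, Nat.squarefree_mul]
    · exact ⟨(hS q (mem_insert_self _ _)).squarefree, ih fun p hp => hS p (mem_insert_of_mem hp)⟩
    · rw [Nat.coprime_prod_right_iff]
      intro p hp
      rw [Nat.coprime_primes (hS q (mem_insert_self _ _)) (hS p (mem_insert_of_mem hp))]
      rintro rfl
      exact hq hp

lemma prod_bad_le (S : Finset ℕ) (hS : ∀ p ∈ S, p.Prime) (Δ : ℕ) (hΔ : 1 ≤ Δ)
    (h : ∀ p ∈ S, p ∣ Δ) : ∏ p ∈ S, p ≤ Δ := by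
  refine Nat.le_of_dvd hΔ ?_
  have h1 : ((∏ p ∈ S, p : ℕ) : ℤ) ∣ (Δ : ℤ) := by
    push_cast
    apply Finset.prod_dvd_of_coprime
    · intro p hp q hq hpq
      exact Nat.isCoprime_iff_coprime.2 ((Nat.coprime_primes (hS p hp) (hS q hq)).2 hpq)
    · intro p hp
      exact Int.natCast_dvd_natCast.2 (h p hp)
  exact Int.natCast_dvd_natCast.1 h1

/-- conditions on `H` which hold eventually -/
lemma ev_H (ε1 : ℝ) (hε1 : 0 < ε1) (J N1 W : ℕ) (Q : ℝ) : ∃ H₀ : ℕ, ∀ H : ℕ, H₀ ≤ H →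
    1 ≤ H ∧ (W : ℝ) < H ∧ (N1 : ℝ) + 1 ≤ (H : ℝ) ^ ε1 ∧ 2 ≤ (H : ℝ) ^ (ε1 / 2) ∧
      2 ^ J ≤ (H : ℝ) ^ ε1 ∧ Q * 2 ^ J ≤ (H : ℝ) ^ ε1 := by
  have h1 : Tendsto (fun H : ℕ => (H : ℝ) ^ ε1) atTop atTop :=
    (tendsto_rpow_atTop hε1).comp tendsto_natCast_atTop_atTop
  have h2 : Tendsto (fun H : ℕ => (H : ℝ) ^ (ε1 / 2)) atTop atTop :=
    (tendsto_rpow_atTop (by positivity)).comp tendsto_natCast_atTop_atTop
  have h3 : Tendsto (fun H : ℕ => (H : ℝ)) atTop atTop := tendsto_natCast_atTop_atTop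
  have h4 := (((((eventually_ge_atTop 1).and (h3.eventually_gt_atTop (W : ℝ))).and
    (h1.eventually_ge_atTop ((N1 : ℝ) + 1))).and (h2.eventually_ge_atTop 2)).and
    (h1.eventually_ge_atTop (2 ^ J))).and (h1.eventually_ge_atTop (Q * 2 ^ J))
  obtain ⟨H₀, hH⟩ := eventually_atTop.1 h4
  refine ⟨H₀, fun H h => ?_⟩
  obtain ⟨⟨⟨⟨⟨a, b⟩, c⟩, d⟩, e⟩, f⟩ := hH H h
  exact ⟨a, b, c, d, e, f⟩

open Classical in
/-- The modulus. -/
theorem modulus (L : Type) [Field L] [NumberField L] (d : ℕ) (hd : 0 < d) (C : ℕ)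
    (ε : ℝ) (hε : 0 < ε) : ∃ H₀ : ℕ, ∀ H : ℕ, H₀ ≤ H → 1 ≤ H ∧ ∃ m : ℕ, 1 ≤ m ∧ (m : ℝ) ≤ (H : ℝ) ^ ε ∧
    ∀ c : Fin d → ℤ, (∀ i, |c i| ≤ (H : ℤ) ^ C) → (chi c).coeff 0 ≠ 0 →
      Squarefree ((chi c).map (Int.castRingHom ℚ)) → ((chi c).map (algebraMap ℤ L)).Splits →
      ∃ M : ℕ, 1 ≤ M ∧ Squarefree M ∧ (H : ℝ) ^ (1 - ε) ≤ M ∧ M ≤ H ∧
        (∀ (a : Fin d → ℤ) (n : ℕ), (M : ℤ) ∣ seq c a (n + m) - seq c a n) ∧
        ∀ (b : Fin d → ℤ) (T : ℕ), 1 ≤ T →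
          (((box b H).filter (fun a => ∃ n, ∃ t : ℤ, |t| ≤ T ∧
            (M : ℤ) ∣ seq c a n - t)).card : ℝ) ≤ T * (H : ℝ) ^ ((d : ℝ) - 1 + ε) := by
  set n := Module.finrank ℚ L with hn
  set ε1 : ℝ := ε / 4 with hε1
  have hε10 : 0 < ε1 := by positivity
  set G : ℕ := C * (n * (d * d) + 1) with hG
  set K : ℝ := 2 * ((G : ℝ) + 2) / ε1 with hK
  obtain ⟨J, N1, hNT⟩ := exists_m L 0 K
  obtain ⟨H₀, hH₀⟩ := ev_H ε1 hε10 J N1 (4 ^ (n * (d * d))) (3 ^ (d + 1))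
  refine ⟨H₀, fun H hH => ?_⟩
  obtain ⟨e1, e2, e3, e4, e5, e6⟩ := hH₀ H hH
  refine ⟨e1, ?_⟩
  have hHR : (1 : ℝ) ≤ H := by exact_mod_cast e1
  have hHpos : (0 : ℝ) < H := by linarith
  set N := ⌊(H : ℝ) ^ ε1⌋₊ with hN
  have hN1 : N1 ≤ N := by
    rw [hN]
    apply Nat.le_floor
    linarith
  have hNle : (N : ℝ) ≤ (H : ℝ) ^ ε1 := Nat.floor_le (by positivity)
  have hNge : (H : ℝ) ^ (ε1 / 2) ≤ N := by
    have h1 := Nat.lt_floor_add_one ((H : ℝ) ^ ε1)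
    rw [← hN] at h1
    have h2 : (H : ℝ) ^ ε1 = (H : ℝ) ^ (ε1 / 2) * (H : ℝ) ^ (ε1 / 2) := by
      rw [← Real.rpow_add hHpos]; congr 1; ring
    nlinarith
  obtain ⟨k, hk1, hkN, S, hS, hprod⟩ := hNT N hN1
  set m := 2 ^ J * k with hm
  have hm1 : 1 ≤ m := Nat.mul_pos (by positivity) hk1
  have hmle : (m : ℝ) ≤ 2 ^ J * (H : ℝ) ^ ε1 := by
    rw [hm]
    push_cast
    have : (k : ℝ) ≤ N := by exact_mod_cast hkN
    exact mul_le_mul_of_nonneg_left (this.trans hNle) (by positivity)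
  refine ⟨m, hm1, ?_, ?_⟩
  · refine hmle.trans ?_
    have h1 : (2 : ℝ) ^ J * (H : ℝ) ^ ε1 ≤ (H : ℝ) ^ ε1 * (H : ℝ) ^ ε1 :=
      mul_le_mul_of_nonneg_right e5 (by positivity)
    refine h1.trans ?_
    rw [← Real.rpow_add hHpos]
    exact Real.rpow_le_rpow_of_exponent_le hHR (by rw [hε1]; linarith)
  · intro c hc h0 hsq hsp
    have hB1 : 1 ≤ H ^ C := Nat.one_le_pow _ _ e1
    obtain ⟨Δ, hΔ1, hΔle, hΔ⟩ := bad L c (H ^ C) hB1 (by push_cast; exact hc) h0 hd hsq hsp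
    rw [← hn] at hΔle
    have hΔH : (Δ : ℝ) * H < (N : ℝ) ^ K := by
      have h1 : (Δ : ℝ) ≤ 4 ^ (n * (d * d)) * (H : ℝ) ^ G := by
        refine hΔle.trans (le_of_eq ?_)
        push_cast
        rw [mul_pow, mul_pow, ← pow_mul, ← pow_mul, ← pow_mul, hG]
        ring
      have h2 : (N : ℝ) ^ K ≥ (H : ℝ) ^ ((G : ℝ) + 2) := by
        have h3 : ((H : ℝ) ^ (ε1 / 2)) ^ K = (H : ℝ) ^ ((G : ℝ) + 2) := by
          rw [← Real.rpow_mul hHpos.le]
          congr 1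
          rw [hK]
          field_simp
        rw [← h3]
        exact Real.rpow_le_rpow (by positivity) hNge (by positivity)
      have h3 : (H : ℝ) ^ ((G : ℝ) + 2) = (H : ℝ) ^ G * (H * H) := by
        rw [Real.rpow_add hHpos, Real.rpow_natCast, Real.rpow_two]
        ring
      have h4 : (4 : ℝ) ^ (n * (d * d)) < H := by exact_mod_cast e2
      have h5 : (0 : ℝ) < (H : ℝ) ^ G := by positivity
      calc (Δ : ℝ) * H ≤ (4 ^ (n * (d * d)) * (H : ℝ) ^ G) * H :=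
            mul_le_mul_of_nonneg_right h1 hHpos.le
        _ < (H * (H : ℝ) ^ G) * H := by
            apply mul_lt_mul_of_pos_right _ hHpos
            exact mul_lt_mul_of_pos_right h4 h5
        _ = (H : ℝ) ^ G * (H * H) := by ring
        _ ≤ (N : ℝ) ^ K := by rw [← h3]; exact h2
    set S' := S.filter (fun p => ¬ p ∣ Δ) with hS'
    have hS'prod : H < ∏ p ∈ S', p := by
      have h1 : (∏ p ∈ S.filter (fun p => p ∣ Δ), p) * ∏ p ∈ S', p = ∏ p ∈ S, p :=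
        prod_filter_mul_prod_filter_not S (fun p => p ∣ Δ) (fun p => p)
      have h2 : ∏ p ∈ S.filter (fun p => p ∣ Δ), p ≤ Δ :=
        prod_bad_le _ (fun p hp => (hS p (mem_filter.1 hp).1).1) Δ hΔ1
          (fun p hp => (mem_filter.1 hp).2)
      have h3 : Δ * H < ∏ p ∈ S, p := by
        have : ((Δ * H : ℕ) : ℝ) < ((∏ p ∈ S, p : ℕ) : ℝ) := by
          push_cast at hprod ⊢
          exact lt_of_lt_of_le hΔH hprod
        exact_mod_cast this
      rw [← h1] at h3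
      have h4 : Δ * H < Δ * ∏ p ∈ S', p := lt_of_lt_of_le h3 (Nat.mul_le_mul_right _ h2)
      exact Nat.lt_of_mul_lt_mul_left h4
    obtain ⟨S'', hS'', hMH, hHM⟩ := greedy S' N H
      (fun p hp => (hS p (mem_filter.1 hp).1).2.2.1) e1 hS'prod
    have hgood : ∀ p ∈ S'', GoodPrime c p ∧ p - 1 ∣ m := by
      intro p hp
      have h1 := mem_filter.1 (hS'' hp)
      have h2 := hS p h1.1
      exact ⟨hΔ p h2.1 h2.2.2.2.2 h1.2, h2.2.2.2.1⟩
    set M := ∏ p ∈ S'', p with hM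
    have hM1 : 1 ≤ M := prod_pos fun p hp => (hgood p hp).1.1.pos
    haveI : NeZero M := ⟨by omega⟩
    have hMR : (1 : ℝ) ≤ M := by exact_mod_cast hM1
    have hMpos : (0 : ℝ) < M := by linarith
    have hHNM : (H : ℝ) ≤ (H : ℝ) ^ ε1 * M := by
      have h1 : (H : ℝ) ≤ N * M := by exact_mod_cast hHM.le
      exact h1.trans (mul_le_mul_of_nonneg_right hNle hMpos.le)
    have hper : ∀ (a : Fin d → ℤ) (n : ℕ), (M : ℤ) ∣ seq c a (n + m) - seq c a n :=
      fun a n => period_prod c S'' m hgood a n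
    refine ⟨M, hM1, squarefree_prod _ fun p hp => (hgood p hp).1.1, ?_, hMH, hper, ?_⟩
    · have h1 : (H : ℝ) ^ (1 - ε1) ≤ M := by
        rw [Real.rpow_sub hHpos, Real.rpow_one, div_le_iff₀ (by positivity)]
        linarith [mul_comm ((H : ℝ) ^ ε1) (M : ℝ)]
      refine le_trans ?_ h1
      exact Real.rpow_le_rpow_of_exponent_le hHR (by rw [hε1]; linarith)
    · intro b T hT
      set cM : Fin d → ZMod M := fun i => (c i : ZMod M) with hcM
      have hunit : IsUnit (cM ⟨0, hd⟩) := by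
        rw [hcM]
        simp only
        rw [ZMod.coe_int_isUnit_iff_isCoprime, hM]
        push_cast
        apply IsCoprime.prod_left
        intro p hp
        have h1 := (hgood p hp).1
        have h2 : ¬ (p : ℤ) ∣ c ⟨0, hd⟩ := by
          intro h
          apply h1.2.2.2
          have h3 : (chi c).coeff 0 = - c ⟨0, hd⟩ := chi_coeff (c := c) ⟨0, hd⟩
          rw [h3]
          exact (dvd_neg).2 h
        exact (Prime.coprime_iff_not_dvd (Nat.prime_iff_prime_int.1 h1.1)).2 h2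
      have h1 := box_count M hM1 H b
        ((univ : Finset (Fin d → ZMod M)).filter
          (fun a => ∃ n < m, ∃ t : ℤ, |t| ≤ T ∧ seq cM a n = (t : ZMod M)))
        ((box b H).filter (fun a => ∃ n, ∃ t : ℤ, |t| ≤ T ∧ (M : ℤ) ∣ seq c a n - t)) (by
          intro a ha
          rw [mem_filter, mem_box] at ha
          refine ⟨ha.1, ?_⟩
          obtain ⟨-, n, t, ht, hdvd⟩ := ha
          rw [mem_filter]
          refine ⟨mem_univ _, n % m, Nat.mod_lt _ hm1, t, ht, ?_⟩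
          have h2 := period_mod c M m hper a n
          have h3 : (M : ℤ) ∣ seq c a (n % m) - t := by
            have := dvd_sub hdvd h2
            rwa [sub_sub_sub_cancel_left] at this
          have e : ((seq c a (n % m) : ℤ) : ZMod M) =
              seq cM (fun i => (a i : ZMod M)) (n % m) :=
            map_seq (Int.castRingHom (ZMod M)) c a (n % m)
          rw [← e, ← sub_eq_zero, ← Int.cast_sub, ZMod.intCast_zmod_eq_zero_iff_dvd]
          exact h3)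
      have h2 := card_omega (M := M) hd cM hunit m T
      have h3 : (((box b H).filter (fun a => ∃ n, ∃ t : ℤ, |t| ≤ T ∧
            (M : ℤ) ∣ seq c a n - t)).card : ℝ) ≤
          ((2 * H / M + 1 : ℕ) : ℝ) ^ d * ((m : ℝ) * (2 * T + 1) * (M : ℝ) ^ (d - 1)) := by
        have h4 := h1.trans (Nat.mul_le_mul_left _ h2)
        exact_mod_cast h4
      refine h3.trans ?_
      have h4 : ((2 * H / M + 1 : ℕ) : ℝ) ≤ 3 * H / M := by
        push_cast
        have h5 : ((2 * H / M : ℕ) : ℝ) ≤ ((2 * H : ℕ) : ℝ) / M := Nat.cast_div_le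
        push_cast at h5
        have h6 : (1 : ℝ) ≤ H / M := by
          rw [le_div_iff₀ hMpos, one_mul]
          exact_mod_cast hMH
        have h7 : 3 * (H : ℝ) / M = 2 * H / M + H / M := by ring
        linarith
      have hTR : (1 : ℝ) ≤ T := by exact_mod_cast hT
      have h5 : ((2 * H / M + 1 : ℕ) : ℝ) ^ d * ((m : ℝ) * (2 * T + 1) * (M : ℝ) ^ (d - 1)) ≤
          (3 * H / M) ^ d * ((2 ^ J * (H : ℝ) ^ ε1) * (3 * T) * (M : ℝ) ^ (d - 1)) := by
        have a1 : ((2 * H / M + 1 : ℕ) : ℝ) ^ d ≤ (3 * H / M) ^ d :=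
          pow_le_pow_left₀ (Nat.cast_nonneg _) h4 d
        have a2 : (m : ℝ) * (2 * T + 1) ≤ (2 ^ J * (H : ℝ) ^ ε1) * (3 * T) :=
          mul_le_mul hmle (by linarith) (by positivity) (by positivity)
        have a3 := mul_le_mul_of_nonneg_right a2 (by positivity : (0 : ℝ) ≤ (M : ℝ) ^ (d - 1))
        exact mul_le_mul a1 a3 (by positivity) (by positivity)
      refine h5.trans ?_
      have h6 : (3 * (H : ℝ) / M) ^ d * ((2 ^ J * (H : ℝ) ^ ε1) * (3 * T) * (M : ℝ) ^ (d - 1)) =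
          (3 ^ (d + 1) * 2 ^ J) * (T * ((H : ℝ) ^ d * (H : ℝ) ^ ε1 * (1 / M))) := by
        obtain ⟨d', rfl⟩ : ∃ d', d = d' + 1 := ⟨d - 1, by omega⟩
        rw [Nat.add_sub_cancel, div_pow, pow_succ (M : ℝ) d']
        field_simp
        ring
      rw [h6]
      have h7 : 1 / (M : ℝ) ≤ (H : ℝ) ^ ε1 / H := by
        rw [div_le_div_iff₀ hMpos hHpos]
        linarith
      have h8 : (H : ℝ) ^ d * (H : ℝ) ^ ε1 * (1 / M) ≤ (H : ℝ) ^ d * (H : ℝ) ^ ε1 *
          ((H : ℝ) ^ ε1 / H) := mul_le_mul_of_nonneg_left h7 (by positivity)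
      have h9 : (3 ^ (d + 1) * 2 ^ J) * (T * ((H : ℝ) ^ d * (H : ℝ) ^ ε1 * (1 / M))) ≤
          (H : ℝ) ^ ε1 * (T * ((H : ℝ) ^ d * (H : ℝ) ^ ε1 * ((H : ℝ) ^ ε1 / H))) := by
        have a1 := mul_le_mul_of_nonneg_left h8 (by linarith : (0 : ℝ) ≤ T)
        exact mul_le_mul e6 a1 (by positivity) (by positivity)
      refine h9.trans ?_
      have h10 : (H : ℝ) ^ ((d : ℝ) - 1 + 3 * ε1) =
          (H : ℝ) ^ d / H * ((H : ℝ) ^ ε1 * (H : ℝ) ^ ε1 * (H : ℝ) ^ ε1) := by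
        rw [Real.rpow_add hHpos, Real.rpow_sub hHpos, Real.rpow_natCast, Real.rpow_one,
          show 3 * ε1 = ε1 + ε1 + ε1 by ring, Real.rpow_add hHpos, Real.rpow_add hHpos]
      have h11 : (H : ℝ) ^ ε1 * (T * ((H : ℝ) ^ d * (H : ℝ) ^ ε1 * ((H : ℝ) ^ ε1 / H))) =
          T * (H : ℝ) ^ ((d : ℝ) - 1 + 3 * ε1) := by
        rw [h10]; ring
      rw [h11]
      refine mul_le_mul_of_nonneg_left ?_ (by linarith)
      exact Real.rpow_le_rpow_of_exponent_le hHR (by rw [hε1]; linarith)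

end Pool.Agent.R544.OM
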