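import Pool.Agent.R544.OM.Fld
import Pool.Agent.R544.OM.Avg

set_option autoImplicit false

/-!
Moduli which are products of many primes `p` of degree one in `L` with `p - 1 ∣ m`, `m` small.
-/

namespace Pool.Agent.R544.OM

open NumberField Filter Topology Finset

variable (L : Type) [Field L] [NumberField L]

open Classical in
/-- the logarithmic weight of the primes of level `i + 1` -/
noncomputable def aa (i P0 n : ℕ) : ℝ :=
  if n.Prime ∧ P0 < n ∧ Lev L (i + 1) n then Real.log n else 0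

lemma log_nat_nonneg (n : ℕ) : 0 ≤ Real.log (n : ℝ) := Real.log_natCast_nonneg n

lemma aa_nonneg (i P0 n : ℕ) : 0 ≤ aa L i P0 n := by
  unfold aa
  split_ifs
  · exact log_nat_nonneg n
  · exact le_refl _

lemma aa_zero (i P0 : ℕ) : aa L i P0 0 = 0 := by
  unfold aa
  simp

lemma TT_le_aa (i P0 N : ℕ) : H332.PIT.TT (KJ L (i + 1)) N ≤
    ((Module.finrank ℚ L : ℝ) * 2 ^ (i + 1)) * (∑ n ∈ range (N + 1), aa L i P0 n +
      ∑ n ∈ range (P0 + 1), Real.log (n : ℝ)) := by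
  classical
  set D : ℝ := (Module.finrank ℚ L : ℝ) * 2 ^ (i + 1) with hD
  have hD0 : 0 ≤ D := by positivity
  unfold H332.PIT.TT
  have h1 : ∀ p ∈ (range (N + 1)).filter Nat.Prime,
      (Nat.card (𝓞 (KJ L (i + 1)) →+* ZMod p) : ℝ) * Real.log p ≤
      D * aa L i P0 p + D * (if p ≤ P0 then Real.log (p : ℝ) else 0) := by
    intro p hp
    rw [mem_filter] at hp
    have hc : (Nat.card (𝓞 (KJ L (i + 1)) →+* ZMod p) : ℝ) ≤ D := by
      refine (H332.PIT.hc_cast_le hp.2).trans ?_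
      rw [hD]
      exact_mod_cast finrank_KJ L (i + 1)
    have hl := log_nat_nonneg p
    have ha := aa_nonneg L i P0 p
    by_cases hlev : Lev L (i + 1) p
    · by_cases hP : p ≤ P0
      · rw [if_pos hP]
        have := mul_le_mul_of_nonneg_right hc hl
        have h2 : 0 ≤ D * aa L i P0 p := by positivity
        linarith
      · have e : aa L i P0 p = Real.log p := by
          unfold aa
          rw [if_pos ⟨hp.2, by omega, hlev⟩]
        rw [e, if_neg hP, mul_zero, add_zero]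
        exact mul_le_mul_of_nonneg_right hc hl
    · have e : Nat.card (𝓞 (KJ L (i + 1)) →+* ZMod p) = 0 := by
        have : IsEmpty (𝓞 (KJ L (i + 1)) →+* ZMod p) := not_nonempty_iff.1 hlev
        exact Nat.card_of_isEmpty
      rw [e, Nat.cast_zero, zero_mul]
      have : 0 ≤ (if p ≤ P0 then Real.log (p : ℝ) else 0) := by
        split_ifs
        · exact hl
        · exact le_refl _
      positivity
  refine (sum_le_sum h1).trans ?_
  rw [sum_add_distrib, mul_add, ← mul_sum, ← mul_sum]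
  refine add_le_add (mul_le_mul_of_nonneg_left ?_ hD0) (mul_le_mul_of_nonneg_left ?_ hD0)
  · exact sum_le_sum_of_subset_of_nonneg (filter_subset _ _) fun n _ _ => aa_nonneg L i P0 n
  · rw [← sum_filter]
    refine sum_le_sum_of_subset_of_nonneg ?_ fun n _ _ => log_nat_nonneg n
    intro n hn
    rw [mem_filter] at hn
    rw [mem_range]
    omega

lemma aa_lower (i P0 : ℕ) : ∃ N0 : ℕ, ∀ N : ℕ, N0 ≤ N →
    1 / (2 * ((Module.finrank ℚ L : ℝ) * 2 ^ (i + 1))) * (N : ℝ) ≤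
      ∑ n ∈ range (N + 1), aa L i P0 n := by
  have hfr : 0 < Module.finrank ℚ L := Module.finrank_pos
  set D : ℝ := (Module.finrank ℚ L : ℝ) * 2 ^ (i + 1) with hD
  have hD0 : 0 < D := by positivity
  set C0 : ℝ := ∑ n ∈ range (P0 + 1), Real.log (n : ℝ) with hC0
  have h1 : Tendsto (fun N : ℕ => H332.PIT.TT (KJ L (i + 1)) N / N) atTop (𝓝 1) :=
    H332.PIT.TT_tendsto (Pool.Agent.H484R2.continuation (KJ L (i + 1)))
  have h2 : ∀ᶠ N : ℕ in atTop, (3 / 4 : ℝ) < H332.PIT.TT (KJ L (i + 1)) N / N :=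
    h1.eventually_const_lt (by norm_num)
  have h3 : ∀ᶠ N : ℕ in atTop, 4 * D * C0 ≤ (N : ℝ) :=
    tendsto_natCast_atTop_atTop.eventually_ge_atTop _
  obtain ⟨N0, hN0⟩ := eventually_atTop.1 ((h2.and h3).and (eventually_ge_atTop 1))
  refine ⟨N0, fun N hN => ?_⟩
  obtain ⟨⟨h4, h5⟩, h6⟩ := hN0 N hN
  have hN : (0 : ℝ) < N := by exact_mod_cast h6
  rw [lt_div_iff₀ hN] at h4
  have h7 := TT_le_aa L i P0 N
  rw [← hD, ← hC0] at h7
  set A := ∑ n ∈ range (N + 1), aa L i P0 n with hA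
  rw [one_div_mul_eq_div, div_le_iff₀ (by positivity)]
  nlinarith

lemma level_sum (i P0 : ℕ) : ∃ N0 : ℕ, ∀ N : ℕ, N0 ≤ N →
    1 / (2 * ((Module.finrank ℚ L : ℝ) * 2 ^ (i + 1))) *
      (Real.log ((N : ℝ) + 2) - Real.log ((N0 : ℝ) + 2)) ≤
      ∑ n ∈ range (N + 1), aa L i P0 n / (n : ℝ) := by
  obtain ⟨N0, h⟩ := aa_lower L i P0
  refine ⟨N0, fun N hN => ?_⟩
  have h1 := abel (aa L i P0) (aa_nonneg L i P0) (aa_zero L i P0) _ (by positivity) N0 h N hN
  have h2 : 0 ≤ (∑ n ∈ range (N + 1), aa L i P0 n) / ((N : ℝ) + 1) :=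
    div_nonneg (sum_nonneg fun n _ => aa_nonneg L i P0 n) (by positivity)
  linarith

open Classical in
/-- the primes used -/
noncomputable def SN (P0 N : ℕ) : Finset ℕ :=
  (range (N + 1)).filter (fun p => p.Prime ∧ P0 < p ∧ Nonempty (𝓞 L →+* ZMod p))

lemma level_le (i P0 N : ℕ) (hP : 2 ≤ P0) :
    ∑ n ∈ range (N + 1), aa L i P0 n / (n : ℝ) ≤
      ∑ p ∈ (SN L P0 N).filter (fun p => 2 ^ (i + 1) ∣ p - 1), Real.log p / p := by
  classical
  have h1 : ∑ n ∈ range (N + 1), aa L i P0 n / (n : ℝ) =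
      ∑ n ∈ (range (N + 1)).filter (fun n => n.Prime ∧ P0 < n ∧ Lev L (i + 1) n),
        Real.log n / n := by
    rw [sum_filter]
    refine sum_congr rfl fun n _ => ?_
    unfold aa
    split_ifs <;> simp
  rw [h1]
  refine sum_le_sum_of_subset_of_nonneg ?_ fun n _ _ =>
    div_nonneg (log_nat_nonneg n) (Nat.cast_nonneg n)
  intro p hp
  rw [mem_filter] at hp
  obtain ⟨h2, h3, h4, ⟨φ⟩⟩ := hp
  haveI : Fact p.Prime := ⟨h3⟩
  rw [mem_filter]
  unfold SN
  rw [mem_filter]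
  refine ⟨⟨h2, h3, h4, ⟨φ.comp (algebraMap (𝓞 L) (𝓞 (KJ L (i + 1))))⟩⟩, ?_⟩
  exact dvd_of_hom L (by omega) φ

lemma SN_log_le (P0 N : ℕ) : ∑ p ∈ SN L P0 N, Real.log (p : ℝ) ≤ Real.log 4 * N := by
  classical
  refine le_trans ?_ (Chebyshev.theta_le_log4_mul_x (x := (N : ℝ)) (Nat.cast_nonneg N))
  rw [H332.PIT.theta_eq]
  refine sum_le_sum_of_subset_of_nonneg ?_ fun n _ _ => log_nat_nonneg n
  intro p hp
  unfold SN at hp
  rw [mem_filter] at hp ⊢
  exact ⟨hp.1, hp.2.1⟩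

/-- For every exponent `K` there is a number `m ≤ 2 ^ J N` such that the product of the primes
`p ≤ N` of degree one in `L` with `p - 1 ∣ m` is at least `N ^ K`. -/
theorem exists_m (P0 : ℕ) (K : ℝ) : ∃ J N1 : ℕ, ∀ N : ℕ, N1 ≤ N →
    ∃ k, 1 ≤ k ∧ k ≤ N ∧ ∃ S : Finset ℕ,
      (∀ p ∈ S, p.Prime ∧ P0 < p ∧ p ≤ N ∧ p - 1 ∣ 2 ^ J * k ∧
        Nonempty (𝓞 L →+* ZMod p)) ∧
      (N : ℝ) ^ K ≤ ((∏ p ∈ S, p : ℕ) : ℝ) := by
  classical
  have hfr : 0 < Module.finrank ℚ L := Module.finrank_pos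
  set D : ℝ := (Module.finrank ℚ L : ℝ) with hD
  have hD0 : 0 < D := by rw [hD]; exact_mod_cast hfr
  set P1 := max P0 2 with hP1
  obtain ⟨J, hJ⟩ := exists_nat_ge (4 * D * (K + 1))
  choose N0 hN0 using fun i => level_sum L i P1
  set C1 : ℝ := ∑ i ∈ range J, 1 / (4 * D) * Real.log ((N0 i : ℝ) + 2) with hC1
  have ev1 : ∀ᶠ N : ℕ in atTop, C1 + Real.log 4 ≤ Real.log (N : ℝ) :=
    (Real.tendsto_log_atTop.comp tendsto_natCast_atTop_atTop).eventually_ge_atTop _
  have ev2 : ∀ᶠ N : ℕ in atTop, ∀ i ∈ range J, N0 i ≤ N := by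
    rw [Filter.eventually_all_finset]
    intro i _
    exact eventually_ge_atTop _
  obtain ⟨N1, hN1⟩ := eventually_atTop.1 ((ev1.and ev2).and (eventually_ge_atTop 1))
  refine ⟨J, N1, fun N hN => ?_⟩
  obtain ⟨⟨h1, h2⟩, h3⟩ := hN1 N hN
  have hNR : (0 : ℝ) < N := by exact_mod_cast h3
  set S := SN L P1 N with hS
  have hS2 : ∀ p ∈ S, 2 < p := by
    intro p hp
    rw [hS] at hp
    unfold SN at hp
    rw [mem_filter] at hp
    have := hp.2.2.1
    have : 2 ≤ P1 := le_max_right _ _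
    omega
  have hlog : 0 ≤ Real.log (N : ℝ) := log_nat_nonneg N
  have hlev : (K + 1) * Real.log N - C1 ≤ ∑ i ∈ range J, (2 : ℝ) ^ i *
        ∑ p ∈ S.filter (fun p => 2 ^ (i + 1) ∣ p - 1), Real.log p / p := by
    have h4 : ∑ i ∈ range J, (1 / (4 * D) * Real.log N - 1 / (4 * D) * Real.log ((N0 i : ℝ) + 2)) ≤
        ∑ i ∈ range J, (2 : ℝ) ^ i *
        ∑ p ∈ S.filter (fun p => 2 ^ (i + 1) ∣ p - 1), Real.log p / p := by
      refine sum_le_sum fun i hi => ?_
      have h5 := (hN0 i N (h2 i hi)).trans (level_le L i P1 N (le_max_right _ _))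
      have h6 := mul_le_mul_of_nonneg_left h5 (by positivity : (0 : ℝ) ≤ 2 ^ i)
      refine le_trans ?_ h6
      have h7 : (2 : ℝ) ^ i * (1 / (2 * (D * 2 ^ (i + 1))) *
          (Real.log ((N : ℝ) + 2) - Real.log ((N0 i : ℝ) + 2))) =
          1 / (4 * D) * (Real.log ((N : ℝ) + 2) - Real.log ((N0 i : ℝ) + 2)) := by
        rw [pow_succ]
        field_simp
        ring
      rw [h7, mul_sub]
      have h8 : Real.log (N : ℝ) ≤ Real.log ((N : ℝ) + 2) := Real.log_le_log hNR (by linarith)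
      have h9 : 1 / (4 * D) * Real.log (N : ℝ) ≤ 1 / (4 * D) * Real.log ((N : ℝ) + 2) :=
        mul_le_mul_of_nonneg_left h8 (by positivity)
      linarith
    rw [sum_sub_distrib, ← hC1, sum_const, card_range, nsmul_eq_mul] at h4
    refine le_trans ?_ h4
    have h5 : (K + 1) ≤ (J : ℝ) * (1 / (4 * D)) := by
      rw [mul_one_div, le_div_iff₀ (by positivity)]
      linarith
    have h6 := mul_le_mul_of_nonneg_right h5 hlog
    linarith
  have havg := avg S J N hS2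
  have hSl : ∑ p ∈ S, Real.log (p : ℝ) ≤ Real.log 4 * N := SN_log_le L P1 N
  have htot : (N : ℝ) * (K * Real.log N) ≤
      ∑ k ∈ Icc 1 N, ∑ p ∈ S.filter (fun p => p - 1 ∣ 2 ^ J * k), Real.log (p : ℝ) := by
    have h4 := mul_le_mul_of_nonneg_left hlev hNR.le
    have h5 : (N : ℝ) * (C1 + Real.log 4) ≤ N * Real.log N := mul_le_mul_of_nonneg_left h1 hNR.le
    nlinarith
  obtain ⟨k, hk, hk2⟩ : ∃ k ∈ Icc 1 N, K * Real.log N ≤
      ∑ p ∈ S.filter (fun p => p - 1 ∣ 2 ^ J * k), Real.log (p : ℝ) := by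
    by_contra hcon
    push Not at hcon
    have h4 := sum_lt_sum_of_nonempty (s := Icc 1 N) (nonempty_Icc.2 h3) hcon
    rw [sum_const, Nat.card_Icc, nsmul_eq_mul, Nat.add_sub_cancel] at h4
    linarith
  rw [mem_Icc] at hk
  refine ⟨k, hk.1, hk.2, S.filter (fun p => p - 1 ∣ 2 ^ J * k), ?_, ?_⟩
  · intro p hp
    rw [mem_filter] at hp
    obtain ⟨hp1, hp2⟩ := hp
    rw [hS] at hp1
    unfold SN at hp1
    rw [mem_filter, mem_range] at hp1
    have : P0 ≤ P1 := le_max_left _ _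
    exact ⟨hp1.2.1, by omega, by omega, hp2, hp1.2.2.2⟩
  · push_cast
    rw [Real.rpow_def_of_pos hNR, mul_comm]
    have h4 : ∏ p ∈ S.filter (fun p => p - 1 ∣ 2 ^ J * k), (p : ℝ) =
        Real.exp (∑ p ∈ S.filter (fun p => p - 1 ∣ 2 ^ J * k), Real.log (p : ℝ)) := by
      rw [Real.exp_sum]
      refine prod_congr rfl fun p hp => ?_
      rw [mem_filter] at hp
      have := hS2 p hp.1
      rw [Real.exp_log]
      have h : 0 < p := by omega
      exact_mod_cast h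
    rw [h4]
    exact Real.exp_le_exp.2 hk2

end Pool.Agent.R544.OM
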